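import Pool.Agent.Helper97.UDP.Gadget

/-!
# Packings of unit disks cannot compute

Let `V` be a simple polygon and consider all packings of `m` unit disks into it. Choose affine
functions of the positions of finitely many disks; their values are the variables of a gadget.

* If, over some open set, the variable `z` is a function of the variables `x i` of pairwise distinct
  disks (and every value of the `x i` is possible) then on a nonempty open set this function is
  affine and depends on at most one of the `x i`.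
* If a linear inequality in the variables of distinct disks is valid for the packings near a point
  and everything on its boundary is possible, then at most two of its coefficients are nonzero.
* So near no point one can realise `x + y = z`, `x + y ≤ z`, `x + y ≥ z` or `x * y = z`.

Proof. The set of the packings is the complement of finitely many open convex sets, and the type of
a packing is the set of those of them that have it in their closure. Types are upper
semicontinuous, so a Baire type argument gives an open set over which a minimal type is attained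
everywhere. Two packings of the same type can be extrapolated beyond each other, which forces the
function to be affine. Extrapolating a packing beyond another one that differs in a cluster of disks
in contact, one sees that such a cluster moves by translations only, and that clusters can be moved
independently of each other.
-/

namespace Pool.Agent.Results.MP_b3ca4b_lc.NoComputationGadgets

open Pool.Agent.Helper20.Flip Pool.Agent.Helper97.UDP Pool.Agent.Helper97.UDP.Gad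

/-- the open convex sets that have to be avoided by the centres -/
def sys {n : ℕ} (V : ZMod n → Pt) (m : ℕ) [NeZero n] : Sys m where
  I := Fin m × {σ : ZMod n → Prop // cell V σ ⊆ (region V)ᶜ}
  fin := inferInstance
  b := Prod.fst
  N := fun k => nbhd (cell V k.2.1)
  isOpen := fun _ => isOpen_nbhd _
  conv := fun k => convex_nbhd (convex_cell V k.2.1)

theorem sys_F {n : ℕ} [NeZero n] {V : ZMod n → Pt} (hV : ∀ i, V i ≠ V (i + 1)) (m : ℕ) :
    (sys V m).F = Packings V m := by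
  ext c
  constructor
  · rintro ⟨h1, h2⟩
    exact ⟨fun i => (disk_subset_iff hV (c i)).2 fun σ => h1 (i, σ), h2⟩
  · rintro ⟨h1, h2⟩
    exact ⟨fun k => (disk_subset_iff hV (c k.1)).1 (h1 k.1) k.2, h2⟩

theorem func' {n : ℕ} (V : ZMod n → Pt) (hV : IsSimple V) (m : ℕ) (k : ℕ) (A : Fin k → Fin m)
    (C : Fin m) (g : Fin k → Pt →ᵃ[ℝ] ℝ) (h : Pt →ᵃ[ℝ] ℝ) (O : Set (Fin k → ℝ))
    (W : Set ((Fin k → ℝ) × ℝ)) (f : (Fin k → ℝ) → ℝ) (hA : Function.Injective A) (hO : IsOpen O)
    (hne : O.Nonempty) (hW : IsOpen W) (hgr : ∀ x ∈ O, (x, f x) ∈ W)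
    (hR : ∀ x ∈ O, ∀ z, (x, z) ∈ W →
      ((∃ c ∈ Packings V m, (fun i => g i (c (A i))) = x ∧ h (c C) = z) ↔ z = f x)) :
    ∃ O' ⊆ O, IsOpen O' ∧ O'.Nonempty ∧ ∃ (l : Fin k → ℝ) (b : ℝ),
      (∀ i j, l i ≠ 0 → l j ≠ 0 → i = j) ∧ ∀ x ∈ O', f x = ∑ i, l i * x i + b := by
  have : NeZero n := ⟨by have := hV.1; omega⟩
  refine func (sys V m) A hA C g h O hO hne f W hW hgr ?_
  rw [sys_F hV.2.1]
  exact hR

theorem facet' {n : ℕ} (V : ZMod n → Pt) (hV : IsSimple V) (m : ℕ) (k : ℕ) (A : Fin k → Fin m)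
    (g : Fin k → Pt →ᵃ[ℝ] ℝ) (l : Fin k → ℝ) (b : ℝ) (W : Set (Fin k → ℝ))
    (hA : Function.Injective A) (hW : IsOpen W) (hne : ∃ x ∈ W, ∑ i, l i * x i = b)
    (h1 : ∀ c ∈ Packings V m, (fun i => g i (c (A i))) ∈ W → ∑ i, l i * g i (c (A i)) ≤ b)
    (h2 : ∀ x ∈ W, ∑ i, l i * x i = b → ∃ c ∈ Packings V m, (fun i => g i (c (A i))) = x) :
    {i | l i ≠ 0}.ncard ≤ 2 := by
  have : NeZero n := ⟨by have := hV.1; omega⟩
  have h := facet (sys V m) A hA g l b W hW hne (by rw [sys_F hV.2.1]; exact h1)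
    (by rw [sys_F hV.2.1]; exact h2)
  have h3 : {i | l i ≠ 0} = ((Finset.univ.filter fun i => l i ≠ 0 : Finset (Fin k)) : Set (Fin k)) := by
    ext i; simp
  rw [h3, Set.ncard_coe_finset]
  exact h

theorem noSum {n : ℕ} (V : ZMod n → Pt) (hV : IsSimple V) (m : ℕ) (A : Fin 3 → Fin m)
    (g : Fin 3 → Pt →ᵃ[ℝ] ℝ) (W : Set (Fin 3 → ℝ))
    (hA : Function.Injective A) (hW : IsOpen W) (s : ℝ) (hs : s ≠ 0)
    (hne : ∃ x ∈ W, x 0 + x 1 = x 2)
    (h1 : ∀ c ∈ Packings V m, (fun i => g i (c (A i))) ∈ W →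
      s * (g 0 (c (A 0)) + g 1 (c (A 1))) ≤ s * g 2 (c (A 2)))
    (h2 : ∀ x ∈ W, x 0 + x 1 = x 2 → ∃ c ∈ Packings V m, (fun i => g i (c (A i))) = x) : False := by
  have h := facet' V hV m 3 A g ![s, s, -s] 0 W hA hW ?_ ?_ ?_
  · have h3 : {i | (![s, s, -s] : Fin 3 → ℝ) i ≠ 0} = Set.univ := by
      ext i; fin_cases i <;> simp [hs]
    rw [h3, Set.ncard_univ] at h
    simp at h
  · obtain ⟨x, hx, hx'⟩ := hne
    refine ⟨x, hx, ?_⟩
    simp [Fin.sum_univ_three]
    linear_combination s * hx'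
  · intro c hc hcW
    have := h1 c hc hcW
    simp [Fin.sum_univ_three]
    linarith
  · intro x hx hx'
    refine h2 x hx ?_
    simp [Fin.sum_univ_three] at hx'
    have : s * (x 0 + x 1 - x 2) = 0 := by linarith
    have := (mul_eq_zero.1 this).resolve_left hs
    linarith

/-- the packings cannot realise a multiplication -/
theorem noProd {n : ℕ} (V : ZMod n → Pt) (hV : IsSimple V) (m : ℕ) (A : Fin 3 → Fin m)
    (g : Fin 3 → Pt →ᵃ[ℝ] ℝ) (W : Set (Fin 3 → ℝ)) (hA : Function.Injective A) (hW : IsOpen W)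
    (hne : ∃ x ∈ W, x 0 * x 1 = x 2) :
    (fun (c : Fin m → Pt) i => g i (c (A i))) '' Packings V m ∩ W ≠ {x | x 0 * x 1 = x 2} ∩ W := by
  intro heq
  obtain ⟨x, hx, hx'⟩ := hne
  set W' : Set ((Fin 2 → ℝ) × ℝ) := {p | ![p.1 0, p.1 1, p.2] ∈ W} with hW'
  have hcont : Continuous fun p : (Fin 2 → ℝ) × ℝ => (![p.1 0, p.1 1, p.2] : Fin 3 → ℝ) := by
    refine continuous_pi fun i => ?_
    fin_cases i
    · show Continuous fun p : (Fin 2 → ℝ) × ℝ => p.1 0
      fun_prop
    · show Continuous fun p : (Fin 2 → ℝ) × ℝ => p.1 1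
      fun_prop
    · show Continuous fun p : (Fin 2 → ℝ) × ℝ => p.2
      fun_prop
  have hWo : IsOpen W' := hW.preimage hcont
  set O : Set (Fin 2 → ℝ) := {y | (y, y 0 * y 1) ∈ W'} with hO
  have hOo : IsOpen O := hWo.preimage (by fun_prop)
  have heta : ∀ y : Fin 3 → ℝ, ![y 0, y 1, y 2] = y := by
    intro y; ext i; fin_cases i <;> rfl
  have hOne : O.Nonempty := by
    refine ⟨![x 0, x 1], ?_⟩
    show (![x 0, x 1, x 0 * x 1] : Fin 3 → ℝ) ∈ W
    rw [hx', heta]
    exact hx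
  obtain ⟨O', hO'1, hO'2, hO'3, l, b, hl, hf⟩ := func' V hV m 2 (fun i => A (Fin.castSucc i)) (A 2)
    (fun i => g (Fin.castSucc i)) (g 2) O W' (fun y => y 0 * y 1)
    (fun i j hij => Fin.castSucc_injective _ (hA hij)) hOo hOne hWo (fun y hy => hy) (by
      intro y hy z hz
      have hz' : (![y 0, y 1, z] : Fin 3 → ℝ) ∈ W := hz
      constructor
      · rintro ⟨c, hc, hcy, hcz⟩
        have h1 : (fun i => g i (c (A i))) = (![y 0, y 1, z] : Fin 3 → ℝ) := by
          ext i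
          fin_cases i
          · exact congrFun hcy 0
          · exact congrFun hcy 1
          · exact hcz
        have h2 : (![y 0, y 1, z] : Fin 3 → ℝ) ∈ {x : Fin 3 → ℝ | x 0 * x 1 = x 2} ∩ W := by
          rw [← heq]
          exact ⟨⟨c, hc, h1⟩, hz'⟩
        exact h2.1.symm
      · intro hzy
        have h2 : (![y 0, y 1, z] : Fin 3 → ℝ) ∈ {x : Fin 3 → ℝ | x 0 * x 1 = x 2} ∩ W :=
          ⟨hzy.symm, hz'⟩
        rw [← heq] at h2
        obtain ⟨⟨c, hc, h3⟩, _⟩ := h2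
        refine ⟨c, hc, ?_, ?_⟩
        · ext i
          fin_cases i
          · exact congrFun h3 0
          · exact congrFun h3 1
        · exact congrFun h3 2)
  -- `y 0 * y 1` is not affine on an open set
  obtain ⟨y, hy⟩ := hO'3
  have hmove : ∀ v : Fin 2 → ℝ, ∀ᶠ ε : ℝ in nhdsWithin 0 (Set.Ioi 0), y + ε • v ∈ O' := by
    intro v
    have h1 : ContinuousAt (fun ε : ℝ => y + ε • v) 0 := by fun_prop
    have h2 := h1.tendsto
    simp only [zero_smul, add_zero] at h2
    exact (h2.mono_left nhdsWithin_le_nhds).eventually (hO'2.mem_nhds hy)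
  obtain ⟨ε, h1, h2, h3, h4⟩ := ((hmove ![1, 0]).and ((hmove ![0, 1]).and
    ((hmove ![1, 1]).and self_mem_nhdsWithin))).exists
  have e0 := hf _ hy
  have e1 := hf _ h1
  have e2 := hf _ h2
  have e3 := hf _ h3
  simp [Fin.sum_univ_two] at e0 e1 e2 e3
  have : ε * ε = 0 := by linear_combination e0 - e1 - e2 + e3
  have h4 : (0 : ℝ) < ε := h4
  nlinarith

theorem result {n : ℕ} (V : ZMod n → Pt) (hV : IsSimple V) (m : ℕ) :
    (∀ (k : ℕ) (A : Fin k → Fin m) (C : Fin m) (g : Fin k → Pt →ᵃ[ℝ] ℝ) (h : Pt →ᵃ[ℝ] ℝ)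
      (O : Set (Fin k → ℝ)) (W : Set ((Fin k → ℝ) × ℝ)) (f : (Fin k → ℝ) → ℝ),
      Function.Injective A → IsOpen O → O.Nonempty → IsOpen W → (∀ x ∈ O, (x, f x) ∈ W) →
      (∀ x ∈ O, ∀ z, (x, z) ∈ W →
        ((∃ c ∈ Packings V m, (fun i => g i (c (A i))) = x ∧ h (c C) = z) ↔ z = f x)) →
      ∃ O' ⊆ O, IsOpen O' ∧ O'.Nonempty ∧ ∃ (l : Fin k → ℝ) (b : ℝ),
        (∀ i j, l i ≠ 0 → l j ≠ 0 → i = j) ∧ ∀ x ∈ O', f x = ∑ i, l i * x i + b) ∧
    (∀ (k : ℕ) (A : Fin k → Fin m) (g : Fin k → Pt →ᵃ[ℝ] ℝ) (l : Fin k → ℝ) (b : ℝ)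
      (W : Set (Fin k → ℝ)),
      Function.Injective A → IsOpen W → (∃ x ∈ W, ∑ i, l i * x i = b) →
      (∀ c ∈ Packings V m, (fun i => g i (c (A i))) ∈ W → ∑ i, l i * g i (c (A i)) ≤ b) →
      (∀ x ∈ W, ∑ i, l i * x i = b → ∃ c ∈ Packings V m, (fun i => g i (c (A i))) = x) →
      {i | l i ≠ 0}.ncard ≤ 2) ∧
    (∀ (A : Fin 3 → Fin m) (g : Fin 3 → Pt →ᵃ[ℝ] ℝ) (W : Set (Fin 3 → ℝ)),
      Function.Injective A → IsOpen W →
      ((∃ x ∈ W, x 0 + x 1 = x 2) →
        (fun (c : Fin m → Pt) i => g i (c (A i))) '' Packings V m ∩ W ≠ {x | x 0 + x 1 = x 2} ∩ W ∧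
        (fun (c : Fin m → Pt) i => g i (c (A i))) '' Packings V m ∩ W ≠ {x | x 0 + x 1 ≤ x 2} ∩ W ∧
        (fun (c : Fin m → Pt) i => g i (c (A i))) '' Packings V m ∩ W ≠ {x | x 2 ≤ x 0 + x 1} ∩ W) ∧
      ((∃ x ∈ W, x 0 * x 1 = x 2) →
        (fun (c : Fin m → Pt) i => g i (c (A i))) '' Packings V m ∩ W ≠
          {x | x 0 * x 1 = x 2} ∩ W)) := by
  refine ⟨fun k A C g h O W f h1 h2 h3 h4 h5 h6 => func' V hV m k A C g h O W f h1 h2 h3 h4 h5 h6,
    fun k A g l b W h1 h2 h3 h4 h5 => facet' V hV m k A g l b W h1 h2 h3 h4 h5,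
    fun A g W hA hW => ⟨fun hne => ⟨fun heq => ?_, fun heq => ?_, fun heq => ?_⟩,
      fun hne => noProd V hV m A g W hA hW hne⟩⟩
  · refine noSum V hV m A g W hA hW 1 one_ne_zero hne (fun c hc hcW => ?_) fun x hx hx' => ?_
    · have : (fun i => g i (c (A i))) ∈ {x : Fin 3 → ℝ | x 0 + x 1 = x 2} ∩ W := by
        rw [← heq]; exact ⟨⟨c, hc, rfl⟩, hcW⟩
      have := this.1
      simp only [Set.mem_ofPred_eq] at this
      linarith
    · have : x ∈ {x : Fin 3 → ℝ | x 0 + x 1 = x 2} ∩ W := ⟨hx', hx⟩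
      rw [← heq] at this
      exact this.1
  · refine noSum V hV m A g W hA hW 1 one_ne_zero hne (fun c hc hcW => ?_) fun x hx hx' => ?_
    · have : (fun i => g i (c (A i))) ∈ {x : Fin 3 → ℝ | x 0 + x 1 ≤ x 2} ∩ W := by
        rw [← heq]; exact ⟨⟨c, hc, rfl⟩, hcW⟩
      have := this.1
      simp only [Set.mem_ofPred_eq] at this
      linarith
    · have : x ∈ {x : Fin 3 → ℝ | x 0 + x 1 ≤ x 2} ∩ W := ⟨hx'.le, hx⟩
      rw [← heq] at this
      exact this.1
  · refine noSum V hV m A g W hA hW (-1) (by norm_num) hne (fun c hc hcW => ?_) fun x hx hx' => ?_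
    · have : (fun i => g i (c (A i))) ∈ {x : Fin 3 → ℝ | x 2 ≤ x 0 + x 1} ∩ W := by
        rw [← heq]; exact ⟨⟨c, hc, rfl⟩, hcW⟩
      have := this.1
      simp only [Set.mem_ofPred_eq] at this
      linarith
    · have : x ∈ {x : Fin 3 → ℝ | x 2 ≤ x 0 + x 1} ∩ W := ⟨hx'.ge, hx⟩
      rw [← heq] at this
      exact this.1

end Pool.Agent.Results.MP_b3ca4b_lc.NoComputationGadgets
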