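import Pool.Agent.Helper97.UDP.Strict

/-!
# Packings of unit disks cannot realise convex constraints

Let `V` be a simple polygon with `n` corners and consider all packings of `m` unit disks into it as a
subset of the configuration space of the centres.

* The set of the packings is the complement of finitely many open convex sets (at most
  `m 2 ^ n + m ^ 2`): two disks overlap iff the difference of the centres lies in an open disk, and a
  disk is not contained in the polygon iff its centre has distance less than 1 from one of the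
  (convex) cells outside of the polygon of the arrangement of the lines through the edges.
* Extrapolation principle: if `X, Y` are packings such that every one of these sets that has `X` in
  its closure has also `Y` in its closure then `X + ε (X - Y)` is a packing for small `ε > 0`.
* By the pigeonhole principle: among more than `2 ^ (m 2 ^ n + m ^ 2)` points of an affine image of
  the space of the packings there are two distinct points `a, b` such that `a + ε (a - b)` is in the
  image, too.
* Hence an affine image in the plane cannot agree, inside of an open set, with a strictly convex set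
  that has more boundary points there.
-/

namespace Pool.Agent.Results.MP_b3ca4b_lc.NoConvexGadgets

open Pool.Agent.Helper20.Flip Pool.Agent.Helper97.UDP

theorem result {n : ℕ} (V : ZMod n → Pt) (hV : IsSimple V) (m : ℕ) :
    (∀ (E : Type) [AddCommGroup E] [Module ℝ E] (π : (Fin m → Pt) →ᵃ[ℝ] E) (S : Finset E),
      2 ^ (m * 2 ^ n + m ^ 2) < S.card → (S : Set E) ⊆ π '' Packings V m →
      ∃ a ∈ S, ∃ b ∈ S, a ≠ b ∧
        ∃ δ > 0, ∀ ε : ℝ, 0 < ε → ε < δ → a + ε • (a - b) ∈ π '' Packings V m) ∧
    (∀ (π : (Fin m → Pt) →ᵃ[ℝ] ℝ × ℝ) (U K : Set (ℝ × ℝ)), IsOpen U → StrictConvex ℝ K →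
      π '' Packings V m ∩ U = K ∩ U →
      (U ∩ K ∩ frontier K).encard ≤ ((2 ^ (m * 2 ^ n + m ^ 2) : ℕ) : ℕ∞)) ∧
    (∀ (π : (Fin m → Pt) →ᵃ[ℝ] ℝ × ℝ) (U : Set (ℝ × ℝ)) (x : ℝ), IsOpen U → 0 < x →
      (x, 1 / x) ∈ U → π '' Packings V m ∩ U ≠ {p | 0 < p.1 ∧ 1 ≤ p.1 * p.2} ∩ U) ∧
    (∀ (π : (Fin m → Pt) →ᵃ[ℝ] ℝ × ℝ) (U : Set (ℝ × ℝ)) (x : ℝ), IsOpen U →
      (x, x ^ 2) ∈ U → π '' Packings V m ∩ U ≠ {p | p.1 ^ 2 ≤ p.2} ∩ U) := by
  refine ⟨fun E _ _ π S hS hSF => packings_extrapolate hV m π S hS hSF,
    fun π U K hU hK h => no_convex hV m π U K hU hK h, fun π U x hU hx hxU => ?_,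
    fun π U x hU hxU => ?_⟩
  · refine not_realised hV m π U _ hU strictConvex_hyperbola ?_
    refine infinite_frontier (D := Set.Ioi 0) isOpen_Ioi (g := fun x => 1 / x) ?_ ?_ hU hx hxU
    · intro y hy
      exact (continuousAt_const.div continuousAt_id (ne_of_gt hy)).continuousWithinAt
    · intro y hy z
      have hy : 0 < y := hy
      constructor
      · rintro ⟨_, h⟩
        rw [div_le_iff₀ hy, mul_comm]
        exact h
      · intro h
        rw [div_le_iff₀ hy, mul_comm] at h
        exact ⟨hy, h⟩
  · refine not_realised hV m π U _ hU strictConvex_parabola ?_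
    refine infinite_frontier (D := Set.univ) isOpen_univ (g := fun x => x ^ 2) ?_ ?_ hU
      (Set.mem_univ x) hxU
    · fun_prop
    · intro y _ z
      exact Iff.rfl

end Pool.Agent.Results.MP_b3ca4b_lc.NoConvexGadgets
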