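import Pool.Agent.Helper97.UDP.Main

/-!
# Packing unit disks into a simple polygon is NP-hard

The decision problem of MP_b3ca4b_lc (does a simple polygon with rational corners contain `m`
disks of radius 1 with disjoint interiors?) is NP-hard, even for orthogonal `x`-monotone containers
that are symmetric about the `x`-axis and lie in a strip of height `32/7`.

Idea of the proof (reduction from PARTITION, weights `w_1, …, w_m`).
* The container is a chain of `m` gadgets between `m + 1` necks.  Each neck (with two pairs of fins
  that leave only the height `4/5 + τ`) contains exactly one disk `M_j`, at height `v_j`, `|v_j| ≤ τ`,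
  and `v_0 = v_m = 0`.  Each gadget contains six disks: an upper chain `T, P, T'` and a lower chain
  `B, Q, B'`, in zones of height `2 + γ_j` (for `T, B`) and `16/7 - 4 γ_j` (for `P, Q`), where
  `γ_j = w_j η`.  The container is the union of `7 m + 1` cells of diameter less than 2, so a packing
  of `7 m + 1` disks has one centre in every cell.
* The disks `P, Q` lie above each other in a zone of height less than `4`, so they cannot be both
  pushed to the boundary: one of them is `up` and the other one `inner`.  The gadget lemma says that
  the distance of consecutive necks is at least
  `30 √3 / 7 + |v_j + v_(j+1) + ε_j γ_j / 2| / √3 - 1000 τ²` for a sign `ε_j`.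
* The total length is `m · 30 r / 7` with a rational `r` a tiny bit larger than `√3` (Pell's
  equation), so all the absolute values nearly vanish; the alternating sum of `v_j + v_(j+1)`
  telescopes to zero, hence `Σ (-1)^j ε_j w_j = 0`.  Conversely a vanishing signed sum of the weights
  gives an explicit packing.
-/

namespace Pool.Agent.Results.MP_b3ca4b_lc.SimplePolygonNPHard

open Pool.Agent.Helper20.Flip Pool.Agent.Helper97.UDP

theorem result (K : ∀ n : ℕ, (ZMod n → Pt) → Prop)
    (hK : ∀ (n : ℕ) (V : ZMod n → Pt), IsSimple V → Special V → K n V) :
    NPHard (PACKING K) :=
  packing_hard K hK

end Pool.Agent.Results.MP_b3ca4b_lc.SimplePolygonNPHard
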