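import Pool.Agent.Helper94.US.MainS

/-!
# Unit-disk packing: an upper bound below `∃ℝ`

Unit-disk packing can be decided by guessing polynomially many bits followed by one question
whether a second-order cone program with rational data (constraints `f² + g² ≤ h k`, `0 ≤ h`,
`0 ≤ k` with affine forms `f, g, h, k`) is feasible. So it is NP-complete if exact feasibility of
second-order cone programs is in NP. It is also in `N·(∃ℝ ∩ ∀ℝ)`, to which `N·SOCF` belongs by
Ramana's exact duality; this is proved here directly. So unit-disk packing can only be `∃ℝ`-hard
if all problems of `∃ℝ` are in these two classes.

Proof. For every disk and every edge of the polygon guess one of four zones; then all the conditions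
on the centres are of the form `0 ≤ q k`, where `q k` is affine or a convex quadratic function. Among
the packings let `c` be one with maximal sum of squares `f` of the coordinates. If the derivatives
of the tight constraints at `c` are nonnegative in a direction then one can move from `c` in this
direction, so `f` does not increase. By Farkas' lemma the gradient of `f` plus a nonnegative
combination of the gradients of the tight constraints vanishes; there are even positive multipliers
on the set `A` of all tight constraints. Then `c` is the unique solution of the reversed program:
minimise `f` subject to `q k ≤ 0` for `k ∈ A`. This is a convex program. Guess `A`. For every other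
constraint `k` a small positive multiple of `q k` can be added to the Lagrange function in such a
way that its minimum exceeds `f c`; this shows that `0 < q k` at the solution. By completing squares
all this becomes a system of second-order cone constraints for the multipliers and the point.

For `N·(∃ℝ ∩ ∀ℝ)` guess the support `T` of minimal nonnegative multipliers. That the reversed
program for `T` is strictly feasible and that its solution satisfies all the constraints can be
expressed by an existential and by a universal sentence, by the theorem of alternatives for convex
functions and by the conditions of Karush, Kuhn and Tucker.
-/

namespace Pool.Agent.Results.MP_b3ca4b_lc.UpperBound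

open Pool.Agent.Helper20.Flip Pool.Agent.Helper94.UR Pool.Agent.Helper94.US

/-- Unit-disk packing is in `N·SOCF` and in `N·(∃ℝ ∩ ∀ℝ)`. So it is NP-complete if exact
feasibility of second-order cone programs is in NP, and if it is `∃ℝ`-hard then `∃ℝ` is contained
in both classes. -/
theorem result : (InN (RedTo SOCF) UDP ∧ InN InBoth UDP) ∧
    (NPLang SOCF → NPLang UDP ∧ NPHard UDP) ∧
    (ERHard UDP → ∀ A, InER A → InN (RedTo SOCF) A ∧ InN InBoth A) :=
  ⟨⟨inN_SOCF, inN_UDP⟩, fun h => ⟨np_of_inN inN_SOCF h, npHard_UDP⟩,
    fun h _ hA => ⟨collapseS h hA, collapse h hA⟩⟩

end Pool.Agent.Results.MP_b3ca4b_lc.UpperBound
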